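import Pool.Agent.MP_151d89_pr.H30.Run
import Pool.Agent.MP_151d89_pr.H5.Dom

/-! The textbook DLR equations agree with the cylinder form of the Gibbs property. -/

set_option autoImplicit false
open MeasureTheory ProbabilityTheory Filter

namespace Pool.Agent.MP_151d89_pr.H7.DLRAux
open Pool.Agent.MP_151d89_pr.H82 Pool.Agent.MP_151d89_pr.H67 Pool.Agent.MP_151d89_pr.H30.RunAux

/-- the DLR equations with conditional expectations -/
def DLR (ν : Measure Conf) : Prop :=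
  IsProbabilityMeasure ν ∧ (∀ᵐ f ∂ν, Hom f) ∧
    ∀ (Λ : Finset (ℤ × ℤ)) (A : Set Conf), MeasurableSet A →
      condExp (cylinderEvents (↑Λ : Set (ℤ × ℤ))ᶜ) ν (A.indicator fun _ => (1 : ℝ)) =ᵐ[ν]
        fun f => (uniformOn {g : Conf | Hom g ∧ ∀ x, x ∉ Λ → g x = f x}).real A

theorem unif_av (Λ : Finset (ℤ × ℤ)) (A : Set Conf) (f : Conf) :
    (uniformOn {g : Conf | Hom g ∧ ∀ x, x ∉ Λ → g x = f x}).real A =
      av Λ (A.indicator fun _ => (1 : ℝ)) f := by
  have e1 : {g : Conf | Hom g ∧ ∀ x, x ∉ Λ → g x = f x} = ↑(FS Λ f) := by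
    ext g; simp [mem_FS]
  have e2 : (↑(FS Λ f) : Set Conf) ∩ A = ↑(FI Λ f A) := by
    ext g; simp [mem_FI]
  rw [e1, av_ind, Measure.real, uniformOn, cond_apply (Finset.measurableSet _), e2,
    Measure.count_apply_finset, Measure.count_apply_finset, ENNReal.toReal_mul,
    ENNReal.toReal_inv, ENNReal.toReal_natCast, ENNReal.toReal_natCast, div_eq_inv_mul]

theorem ind_abs (A : Set Conf) (f : Conf) : |A.indicator (fun _ => (1 : ℝ)) f| ≤ 1 := by
  by_cases hf : f ∈ A <;> simp [hf]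

theorem out_le (Λ : Finset (ℤ × ℤ)) :
    cylinderEvents (X := fun _ : ℤ × ℤ => ℤ) (↑Λ : Set (ℤ × ℤ))ᶜ ≤
      MeasurableSpace.comap (rep Λ 0) MeasurableSpace.pi := by
  refine iSup₂_le fun x hx => ?_
  have hx' : x ∉ Λ := fun h => hx (Finset.mem_coe.2 h)
  have e : (fun f : Conf => f x) = (fun f : Conf => f x) ∘ rep Λ 0 := by
    funext f; simp [rep, hx']
  rw [e, ← MeasurableSpace.comap_comp]
  exact MeasurableSpace.comap_mono (measurable_pi_apply x).comap_le

theorem out_inv {Λ : Finset (ℤ × ℤ)} {s : Set Conf}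
    (hs : MeasurableSet[cylinderEvents (↑Λ : Set (ℤ × ℤ))ᶜ] s) {f g : Conf}
    (h : ∀ x, x ∉ Λ → f x = g x) : f ∈ s ↔ g ∈ s := by
  obtain ⟨t, -, rfl⟩ := out_le Λ s hs
  have e : rep Λ 0 f = rep Λ 0 g := by
    funext x
    by_cases hx : x ∈ Λ
    · simp [rep, hx]
    · simp [rep, hx, h x hx]
  simp only [Set.mem_preimage, e]

theorem out_meas (Λ : Finset (ℤ × ℤ)) {φ : Conf → ℝ} (hφ : Measurable φ) :
    Measurable[cylinderEvents (↑Λ : Set (ℤ × ℤ))ᶜ] (av Λ φ) := by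
  have e : av Λ φ = av Λ φ ∘ rep Λ 0 := by
    funext f
    exact av_congr φ fun x hx => by simp [rep, hx]
  have h : @Measurable Conf Conf (cylinderEvents (↑Λ : Set (ℤ × ℤ))ᶜ) MeasurableSpace.pi
      (rep Λ 0) := by
    refine (@measurable_pi_iff Conf (ℤ × ℤ) (fun _ => ℤ) (cylinderEvents (↑Λ : Set (ℤ × ℤ))ᶜ)
      _ _).2 fun x => ?_
    by_cases hx : x ∈ Λ
    · simp only [rep, if_pos hx]
      exact measurable_const
    · simp only [rep, if_neg hx]
      exact measurable_cylinderEvent_apply (X := fun _ : ℤ × ℤ => ℤ)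
        (fun h => hx (Finset.mem_coe.1 h))
  rw [e]
  exact (meas_av Λ hφ).comp h

theorem of_gibbs {ν : Measure Conf} (hν : Gibbs ν) : DLR ν := by
  have := hν.1
  refine ⟨hν.1, hν.2.1, fun Λ A hA => ?_⟩
  have hm : Measurable (A.indicator fun _ => (1 : ℝ)) := measurable_const.indicator hA
  simp only [unif_av]
  refine (ae_eq_condExp_of_forall_setIntegral_eq cylinderEvents_le_pi (intg hm (ind_abs A))
    (fun s _ _ => (intg (meas_av Λ hm) (av_abs (ind_abs A))).integrableOn) (fun s hs _ => ?_)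
    (out_meas Λ hm).stronglyMeasurable.aestronglyMeasurable).symm
  have hs' : MeasurableSet s := cylinderEvents_le_pi s hs
  rw [← integral_indicator hs', ← integral_indicator hs',
    ← int_av hν Λ (hm.indicator hs') (B := 1) fun a => by
      by_cases ha : a ∈ s
      · rw [Set.indicator_of_mem ha]; exact ind_abs A a
      · simp [ha]]
  refine integral_congr_ae (ae_of_all _ fun f => ?_)
  by_cases hf : f ∈ s
  · rw [Set.indicator_of_mem hf]
    exact av_eq fun a ha => (Set.indicator_of_mem ((out_inv hs (mem_FS.1 ha).2).2 hf) _).symm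
  · rw [Set.indicator_of_notMem hf, av, Finset.sum_eq_zero fun a ha =>
      Set.indicator_of_notMem (fun h => hf ((out_inv hs (mem_FS.1 ha).2).1 h)) _, zero_div]

theorem card_le {Λ Δ : Finset (ℤ × ℤ)} {a b : Conf} (hb : Hom b) (h : ∀ x, x ∉ Λ → a x = b x)
    (hΔ : ∀ x ∈ Λ, x ∈ Δ ∧ ∀ y : ℤ × ℤ, |x.1 - y.1| + |x.2 - y.2| = 1 → y ∈ Δ) (f : Conf) :
    (FI Λ f (cyl Δ a)).card ≤ (FI Λ f (cyl Δ b)).card := by
  refine Finset.card_le_card_of_injOn (rep Λ b) (fun g hg => ?_) fun g hg g' hg' _ => ?_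
  · obtain ⟨h1, h2⟩ := mem_FI.1 (Finset.mem_coe.1 hg)
    obtain ⟨h3, h4⟩ := mem_FS.1 h1
    refine Finset.mem_coe.2 (mem_FI.2 ⟨mem_FS.2 ⟨H5.DomAux.hom_rep h3 hb fun u hu w huw hw =>
      (h2 w ((hΔ u hu).2 w huw)).trans (h w hw), fun x hx => ?_⟩, fun x hx => ?_⟩)
    · simp only [rep, if_neg hx]; exact h4 x hx
    · by_cases hx' : x ∈ Λ
      · simp only [rep, if_pos hx']
      · simp only [rep, if_neg hx']; exact (h2 x hx).trans (h x hx')
  · obtain ⟨h1, h2⟩ := mem_FI.1 (Finset.mem_coe.1 hg)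
    obtain ⟨h3, h4⟩ := mem_FI.1 (Finset.mem_coe.1 hg')
    funext x
    by_cases hx : x ∈ Λ
    · exact (h2 x (hΔ x hx).1).trans (h4 x (hΔ x hx).1).symm
    · exact ((mem_FS.1 h1).2 x hx).trans ((mem_FS.1 h3).2 x hx).symm

theorem to_gibbs {ν : Measure Conf} (hν : DLR ν) : Gibbs ν := by
  have := hν.1
  refine ⟨hν.1, hν.2.1, fun Λ Δ a b ha hb h hΔ => ?_⟩
  have key : ∀ A : Set Conf, MeasurableSet A →
      ν.real A = ∫ f, av Λ (A.indicator fun _ => (1 : ℝ)) f ∂ν := fun A hA => by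
    have h1 := hν.2.2 Λ A hA
    simp only [unif_av] at h1
    rw [← integral_congr_ae h1, integral_condExp cylinderEvents_le_pi, integral_indicator hA]
    simp
  have e : ν.real (cyl Δ a) = ν.real (cyl Δ b) := by
    rw [key _ (meas_cyl Δ a), key _ (meas_cyl Δ b)]
    refine integral_congr_ae (ae_of_all _ fun f => ?_)
    simp only [av_ind]
    rw [le_antisymm (card_le hb h hΔ f) (card_le ha (fun x hx => (h x hx).symm) hΔ f)]
  exact (ENNReal.toReal_eq_toReal_iff' (measure_ne_top _ _) (measure_ne_top _ _)).1 e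

end Pool.Agent.MP_151d89_pr.H7.DLRAux
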