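import Pool.Agent.MP_151d89_pr.H7.Top
import Pool.Agent.MP_151d89_pr.H7.DLR
import Pool.Agent.MP_151d89_pr.H35.E
import Pool.Agent.MP_151d89_pr.H31.MW
import Pool.Agent.MP_151d89_pr.H71.NB
import Pool.Agent.MP_151d89_pr.H70.PB
import Pool.Agent.MP_151d89_pr.H30W.Psi
import Pool.Agent.MP_151d89_pr.H30W.Ward
import Pool.Agent.MP_151d89_pr.H30W.Face
import Pool.Agent.MP_151d89_pr.H30W.Alt
import Pool.Agent.MP_151d89_pr.H30W.CHF
import Pool.Agent.MP_151d89_pr.H30W.ZF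
import Pool.Agent.MP_151d89_pr.H30W.Lab

/-! Every extreme point of the set of DLR measures is almost frozen. -/

set_option autoImplicit false
open MeasureTheory

namespace Pool.Agent.MP_151d89_pr.H7
open Pool.Agent.MP_151d89_pr.H82

theorem full (μ : Measure (ℤ × ℤ → ℤ)) (hμ : Gibbs μ) (hE : H33.FinalAux.Ext μ) :
    ∃ e, H5.AF μ e := by
  have hP := H70.pb_row H30W.ward_row H30W.sum_row H30W.lab_row
  exact H7.fin H30W.psi_row (H31.mw_glue H35.e_row H30W.psi_row H30W.sum_row)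
    (H71.nb_row hP H30W.lab_row) hP (H30W.chf_row H30W.ward_row H30W.face_row)
    (H30W.zf_row H30W.ward_row H30W.alt_row) H30W.lab_row μ hμ hE

theorem full_dlr (μ : Measure (ℤ × ℤ → ℤ))
    (hμ : μ ∈ Set.extremePoints ENNReal {ν | DLRAux.DLR ν}) : ∃ e, H5.AF μ e := by
  obtain ⟨h1, h2⟩ := mem_extremePoints.1 hμ
  refine full μ (DLRAux.to_gibbs h1) fun ν₁ h₁ ν₂ h₂ t ht ht' e => ?_
  obtain ⟨h3, h4⟩ := h2 ν₁ (DLRAux.of_gibbs h₁) ν₂ (DLRAux.of_gibbs h₂)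
    ⟨t, 1 - t, ht, tsub_pos_of_lt ht', add_tsub_cancel_of_le ht'.le, e.symm⟩
  exact h3.trans h4.symm

end Pool.Agent.MP_151d89_pr.H7
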