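import Pool.Agent.MP_151d89_pr.H9.BrCH
import Pool.Agent.MP_151d89_pr.H9.BrNB
import Pool.Agent.MP_151d89_pr.H9.BrZ
import Pool.Agent.MP_151d89_pr.H9.BrG
import Pool.Agent.MP_151d89_pr.H9.Red
import Pool.Agent.MP_151d89_pr.H9.Sym
import Pool.Agent.MP_151d89_pr.H55.Big
import Pool.Agent.MP_151d89_pr.H31.CH

/-!
The assembly from the lattice rows.
-/

set_option autoImplicit false
open MeasureTheory

namespace Pool.Agent.MP_151d89_pr.H7
open Pool.Agent.MP_151d89_pr.H82 Pool.Agent.MP_151d89_pr.H33 Pool.Agent.MP_151d89_pr.H67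

theorem fin (hPsi : H30W.PsiStmt) (hMW : H9.MWStmt) (hNB : H9.NBStmt) (hP : H30W.PBStmt)
    (hC : H30W.CHFStmt) (hZ : H30W.ZFStmt) (hL : H30W.LabStmt) (μ : Measure Conf) (hμ : Gibbs μ)
    (hE : FinalAux.Ext μ) : ∃ e, H5.AF μ e :=
  H9.top H55.big hPsi hMW (H31.ch_row hP hC hL) hNB (H31.zv_row hP hZ hC hL)
    (H9.brch_row H55.limSeq) (H9.brnb_row H55.limSeq) (H9.brz_row H55.limSeq)
    (H9.brg_row H55.limSeq) H9.red_row H9.sym_row μ hμ hE

end Pool.Agent.MP_151d89_pr.H7
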